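import Mathlib

open Set MeasureTheory Filter Topology

namespace Helper69.CRem

/-- A continuous function on an interval whose symmetric second differences are
asymptotically nonnegative at each interior point is convex. -/
theorem chord_of_second_diff {g : ℝ → ℝ} {x y : ℝ} (hxy : x < y) (hg : ContinuousOn g (Icc x y))
    (H : ∀ t ∈ Ioo x y, ∀ ε > 0, ∀ δ > 0, ∃ h, 0 < h ∧ h < δ ∧
      -(ε * h ^ 2) ≤ g (t + h) + g (t - h) - 2 * g t) :
    ∀ t ∈ Icc x y, (y - x) * g t ≤ (y - t) * g x + (t - x) * g y := by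
  have main : ∀ ε > 0, ∀ t ∈ Icc x y,
      (y - x) * (g t - ε * ((t - x) * (y - t))) - ((y - t) * g x + (t - x) * g y) ≤ 0 := by
    intro ε hε
    by_contra hcon
    push Not at hcon
    obtain ⟨t1, ht1, hpos⟩ := hcon
    set E : ℝ → ℝ := fun t =>
      (y - x) * (g t - ε * ((t - x) * (y - t))) - ((y - t) * g x + (t - x) * g y) with hE
    have hEc : ContinuousOn E (Icc x y) := by
      apply ContinuousOn.sub
      · apply ContinuousOn.mul continuousOn_const
        apply ContinuousOn.sub hg
        fun_prop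
      · fun_prop
    obtain ⟨t0, ht0, hmax⟩ := isCompact_Icc.exists_isMaxOn ⟨t1, ht1⟩ hEc
    have hmax' : ∀ t ∈ Icc x y, E t ≤ E t0 := fun t ht => hmax ht
    have hE0 : 0 < E t0 := lt_of_lt_of_le hpos (hmax' t1 ht1)
    have hx0 : t0 ≠ x := by
      rintro rfl
      simp [hE] at hE0
    have hy0 : t0 ≠ y := by
      rintro rfl
      simp [hE] at hE0
    have ht0' : t0 ∈ Ioo x y :=
      ⟨lt_of_le_of_ne ht0.1 (Ne.symm hx0), lt_of_le_of_ne ht0.2 hy0⟩
    obtain ⟨h, hh0, hhδ, hdiff⟩ := H t0 ht0' ε hε (min (t0 - x) (y - t0))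
      (lt_min (by linarith [ht0'.1]) (by linarith [ht0'.2]))
    have h1 : h < t0 - x := lt_of_lt_of_le hhδ (min_le_left _ _)
    have h2 : h < y - t0 := lt_of_lt_of_le hhδ (min_le_right _ _)
    have e1 := hmax' (t0 + h) ⟨by linarith, by linarith⟩
    have e2 := hmax' (t0 - h) ⟨by linarith, by linarith⟩
    have e3 : E (t0 + h) + E (t0 - h) - 2 * E t0 =
        (y - x) * ((g (t0 + h) + g (t0 - h) - 2 * g t0) + 2 * ε * h ^ 2) := by
      simp only [hE]; ring
    have e4 : 0 < (y - x) * ((g (t0 + h) + g (t0 - h) - 2 * g t0) + 2 * ε * h ^ 2) := by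
      apply mul_pos (by linarith)
      have : 0 < ε * h ^ 2 := by positivity
      linarith
    linarith
  intro t ht
  have hC : 0 ≤ (y - x) * ((t - x) * (y - t)) :=
    mul_nonneg (by linarith) (mul_nonneg (by linarith [ht.1]) (by linarith [ht.2]))
  apply le_of_forall_pos_le_add
  intro η hη
  have hC1 : 0 < (y - x) * ((t - x) * (y - t)) + 1 := by linarith
  have := main (η / ((y - x) * ((t - x) * (y - t)) + 1)) (by positivity) t ht
  have h3 : η / ((y - x) * ((t - x) * (y - t)) + 1) * ((y - x) * ((t - x) * (y - t))) ≤ η := by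
    rw [div_mul_eq_mul_div, div_le_iff₀ hC1]
    nlinarith
  nlinarith

theorem convexOn_of_second_diff {g : ℝ → ℝ} {a b : ℝ} (hg : ContinuousOn g (Icc a b))
    (H : ∀ t ∈ Ioo a b, ∀ ε > 0, ∀ δ > 0, ∃ h, 0 < h ∧ h < δ ∧
      -(ε * h ^ 2) ≤ g (t + h) + g (t - h) - 2 * g t) :
    ConvexOn ℝ (Icc a b) g := by
  have key : ∀ x ∈ Icc a b, ∀ y ∈ Icc a b, x < y → ∀ t ∈ Icc x y,
      (y - x) * g t ≤ (y - t) * g x + (t - x) * g y := by
    intro x hx y hy hxy
    apply chord_of_second_diff hxy (hg.mono (Icc_subset_Icc hx.1 hy.2))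
    intro t ht
    exact H t ⟨by linarith [hx.1, ht.1], by linarith [hy.2, ht.2]⟩
  refine ⟨convex_Icc _ _, ?_⟩
  intro x hx y hy s r hs hr hsr
  simp only [smul_eq_mul]
  rcases lt_trichotomy x y with hxy | hxy | hxy
  · have e1 : y - (s * x + r * y) = s * (y - x) := by
      have : r = 1 - s := by linarith
      subst this; ring
    have e2 : (s * x + r * y) - x = r * (y - x) := by
      have : s = 1 - r := by linarith
      subst this; ring
    have f1 : 0 ≤ s * (y - x) := mul_nonneg hs (by linarith)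
    have f2 : 0 ≤ r * (y - x) := mul_nonneg hr (by linarith)
    have := key x hx y hy hxy (s * x + r * y) ⟨by linarith, by linarith⟩
    rw [e1, e2] at this
    have h3 : (y - x) * g (s * x + r * y) ≤ (y - x) * (s * g x + r * g y) := by
      calc _ ≤ _ := this
        _ = _ := by ring
    exact le_of_mul_le_mul_left h3 (by linarith)
  · subst hxy
    have e1 : s * x + r * x = x := by rw [← add_mul, hsr, one_mul]
    have e2 : s * g x + r * g x = g x := by rw [← add_mul, hsr, one_mul]
    rw [e1, e2]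
  · have e1 : x - (s * x + r * y) = r * (x - y) := by
      have : s = 1 - r := by linarith
      subst this; ring
    have e2 : (s * x + r * y) - y = s * (x - y) := by
      have : r = 1 - s := by linarith
      subst this; ring
    have f1 : 0 ≤ r * (x - y) := mul_nonneg hr (by linarith)
    have f2 : 0 ≤ s * (x - y) := mul_nonneg hs (by linarith)
    have := key y hy x hx hxy (s * x + r * y) ⟨by linarith, by linarith⟩
    rw [e1, e2] at this
    have h3 : (x - y) * g (s * x + r * y) ≤ (x - y) * (s * g x + r * g y) := by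
      calc _ ≤ _ := this
        _ = _ := by ring
    exact le_of_mul_le_mul_left h3 (by linarith)

end Helper69.CRem
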