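import Pool.Agent.Helper69.CRemA

open Set MeasureTheory Filter Topology

namespace Helper69.CRem

/-- local convexity of a function of the plane off a set -/
def LC (f : ℝ × ℝ → ℝ) (K : Set (ℝ × ℝ)) : Prop :=
  ∀ p ∉ K, ∃ V : Set (ℝ × ℝ), IsOpen V ∧ p ∈ V ∧ ConvexOn ℝ V f

theorem second_nonneg {f : ℝ × ℝ → ℝ} {K : Set (ℝ × ℝ)} (hf : Continuous f) (hLC : LC f K)
    (p v : ℝ × ℝ) (hseg : ∀ t ∈ Icc (-1 : ℝ) 1, p + t • v ∉ K) :
    0 ≤ f (p + v) + f (p - v) - 2 * f p := by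
  have h := chord_of_second_diff (g := fun t : ℝ => f (p + t • v)) (x := -1) (y := 1)
    (by norm_num) (by fun_prop) ?_ 0 (by norm_num)
  · simp only [zero_smul, add_zero, one_smul, neg_smul] at h
    have e : p + -v = p - v := by abel
    rw [e] at h
    linarith
  · intro t ht ε hε δ hδ
    obtain ⟨V, hVo, hpV, hVc⟩ := hLC (p + t • v) (hseg t ⟨ht.1.le, ht.2.le⟩)
    have hc : Continuous (fun h : ℝ => p + (t + h) • v) := by fun_prop
    have hc' : Continuous (fun h : ℝ => p + (t - h) • v) := by fun_prop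
    have n1 : ∀ᶠ h in 𝓝 (0:ℝ), p + (t + h) • v ∈ V := by
      apply hc.continuousAt.eventually_mem
      simpa using hVo.mem_nhds hpV
    have n2 : ∀ᶠ h in 𝓝 (0:ℝ), p + (t - h) • v ∈ V := by
      apply hc'.continuousAt.eventually_mem
      simpa using hVo.mem_nhds hpV
    obtain ⟨r, hr, hball⟩ := Metric.eventually_nhds_iff.mp (n1.and n2)
    refine ⟨min (r / 2) (δ / 2), by positivity, ?_, ?_⟩
    · exact lt_of_le_of_lt (min_le_right _ _) (by linarith)
    · set h := min (r / 2) (δ / 2) with hh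
      have hh0 : 0 < h := by positivity
      have hhr : h ≤ r / 2 := min_le_left _ _
      have := hball (y := h) (by rw [Real.dist_eq, sub_zero, abs_of_pos hh0]; linarith)
      have hcv := hVc.2 this.1 this.2 (show (0:ℝ) ≤ 1/2 by norm_num)
        (show (0:ℝ) ≤ 1/2 by norm_num) (by norm_num)
      have e : (1/2 : ℝ) • (p + (t + h) • v) + (1/2 : ℝ) • (p + (t - h) • v) = p + t • v := by
        ext <;> simp <;> ring
      rw [e] at hcv
      simp only [smul_eq_mul] at hcv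
      have : 0 < ε * h ^ 2 := by positivity
      show -(ε * h ^ 2) ≤ f (p + (t + h) • v) + f (p + (t - h) • v) - 2 * f (p + t • v)
      linarith

/-- mixed difference -/
def Dxy (f : ℝ × ℝ → ℝ) (a b : ℝ) (z : ℝ × ℝ) : ℝ :=
  f (z.1 + a, z.2 + b) - f (z.1 + a, z.2) - f (z.1, z.2 + b) + f (z.1, z.2)

/-- four corners minus four times the centre -/
noncomputable def Sq (f : ℝ × ℝ → ℝ) (k : ℝ) (z : ℝ × ℝ) : ℝ :=
  (f (z.1 + k, z.2) + f (z.1, z.2) - 2 * f (z.1 + k / 2, z.2)) +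
  (f (z.1 + k, z.2 + k) + f (z.1, z.2 + k) - 2 * f (z.1 + k / 2, z.2 + k)) +
  2 * (f (z.1 + k / 2, z.2 + k) + f (z.1 + k / 2, z.2) - 2 * f (z.1 + k / 2, z.2 + k / 2))

theorem Dxy_le_Sq {f : ℝ × ℝ → ℝ} {A B : Set ℝ} (hf : Continuous f) (hLC : LC f (A ×ˢ B))
    {k : ℝ} (hk : 0 ≤ k) (z : ℝ × ℝ) (hz : ∀ x ∈ Icc z.1 (z.1 + k), x ∉ A) :
    |Dxy f k k z| ≤ Sq f k z := by
  have h1 := second_nonneg hf hLC (z.1 + k / 2, z.2 + k / 2) (k / 2, k / 2) (by
    intro t ht hmem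
    simp only [Prod.smul_mk, smul_eq_mul, Prod.mk_add_mk, mem_prod] at hmem
    exact hz _ ⟨by nlinarith [ht.1], by nlinarith [ht.2]⟩ hmem.1)
  have h2 := second_nonneg hf hLC (z.1 + k / 2, z.2 + k / 2) (k / 2, -(k / 2)) (by
    intro t ht hmem
    simp only [Prod.smul_mk, smul_eq_mul, Prod.mk_add_mk, mem_prod] at hmem
    exact hz _ ⟨by nlinarith [ht.1], by nlinarith [ht.2]⟩ hmem.1)
  have e1 : ((z.1 + k / 2, z.2 + k / 2) + (k / 2, k / 2) : ℝ × ℝ) = (z.1 + k, z.2 + k) := by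
    ext <;> (simp; ring)
  have e2 : ((z.1 + k / 2, z.2 + k / 2) - (k / 2, k / 2) : ℝ × ℝ) = (z.1, z.2) := by
    ext <;> simp
  have e3 : ((z.1 + k / 2, z.2 + k / 2) + (k / 2, -(k / 2)) : ℝ × ℝ) = (z.1 + k, z.2) := by
    ext <;> simp <;> ring
  have e4 : ((z.1 + k / 2, z.2 + k / 2) - (k / 2, -(k / 2)) : ℝ × ℝ) = (z.1, z.2 + k) := by
    ext <;> simp <;> ring
  rw [e1, e2] at h1
  rw [e3, e4] at h2
  unfold Dxy Sq
  rw [abs_le]
  constructor <;> linarith

/-- horizontal second differences are nonnegative -/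
theorem horiz_nonneg {f : ℝ × ℝ → ℝ} {A B : Set ℝ} (hf : Continuous f) (hLC : LC f (A ×ˢ B))
    (hB : Dense Bᶜ) (x y k : ℝ) :
    0 ≤ f (x + k, y) + f (x - k, y) - 2 * f (x, y) := by
  have hcl : IsClosed {y : ℝ | 0 ≤ f (x + k, y) + f (x - k, y) - 2 * f (x, y)} := by
    apply isClosed_le continuous_const
    fun_prop
  have hsub : Bᶜ ⊆ {y : ℝ | 0 ≤ f (x + k, y) + f (x - k, y) - 2 * f (x, y)} := by
    intro y hy
    have := second_nonneg hf hLC (x, y) (k, 0) (by
      intro t _ hmem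
      simp only [Prod.smul_mk, smul_eq_mul, mul_zero, Prod.mk_add_mk, add_zero, mem_prod] at hmem
      exact hy hmem.2)
    simpa using this
  have := hcl.closure_subset_iff.mpr hsub
  rw [hB.closure_eq] at this
  exact this (mem_univ y)

theorem vert_nonneg {f : ℝ × ℝ → ℝ} {A B : Set ℝ} (hf : Continuous f) (hLC : LC f (A ×ˢ B))
    (hA : Dense Aᶜ) (x y k : ℝ) :
    0 ≤ f (x, y + k) + f (x, y - k) - 2 * f (x, y) := by
  have hcl : IsClosed {x : ℝ | 0 ≤ f (x, y + k) + f (x, y - k) - 2 * f (x, y)} := by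
    apply isClosed_le continuous_const
    fun_prop
  have hsub : Aᶜ ⊆ {x : ℝ | 0 ≤ f (x, y + k) + f (x, y - k) - 2 * f (x, y)} := by
    intro x hx
    have := second_nonneg hf hLC (x, y) (0, k) (by
      intro t _ hmem
      simp only [Prod.smul_mk, smul_eq_mul, mul_zero, Prod.mk_add_mk, add_zero, mem_prod] at hmem
      exact hx hmem.1)
    simpa using this
  have := hcl.closure_subset_iff.mpr hsub
  rw [hA.closure_eq] at this
  exact this (mem_univ x)

/-- a continuous midpoint convex function of one variable is convex -/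
theorem convexOn_of_mid {g : ℝ → ℝ} (hg : Continuous g)
    (H : ∀ x k, 0 ≤ g (x + k) + g (x - k) - 2 * g x) (a b : ℝ) : ConvexOn ℝ (Icc a b) g := by
  apply convexOn_of_second_diff hg.continuousOn
  intro t _ ε hε δ hδ
  refine ⟨δ / 2, by linarith, by linarith, ?_⟩
  have := H t (δ / 2)
  have h2 : 0 ≤ ε * (δ / 2) ^ 2 := by positivity
  linarith

/-- Lipschitz bound from a bound of the absolute value on a larger interval -/
theorem lip_of_mid {g : ℝ → ℝ} (hg : Continuous g)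
    (H : ∀ x k, 0 ≤ g (x + k) + g (x - k) - 2 * g x) {ρ M : ℝ} (hρ : 0 < ρ)
    (hM : ∀ x, |x| ≤ ρ + 2 → |g x| ≤ M) :
    ∀ x y, |x| ≤ ρ → |y| ≤ ρ → |g x - g y| ≤ 2 * M * |x - y| := by
  have hM0 : 0 ≤ M := le_trans (abs_nonneg _) (hM 0 (by simp; linarith))
  have hc : ConvexOn ℝ (Metric.ball (0:ℝ) (ρ + 2)) g := by
    apply (convexOn_of_mid hg H (-(ρ + 2)) (ρ + 2)).subset _ (convex_ball _ _)
    intro x hx
    rw [Metric.mem_ball, Real.dist_eq, sub_zero] at hx
    rw [abs_lt] at hx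
    exact ⟨hx.1.le, hx.2.le⟩
  have := hc.lipschitzOnWith_of_abs_le (ε := 1) one_pos (M := M) (by
    intro a ha
    rw [Real.dist_eq, sub_zero] at ha
    exact hM a ha.le)
  intro x y hx hy
  have h := this.dist_le_mul x (by
    rw [Metric.mem_ball, Real.dist_eq, sub_zero]; linarith) y (by
    rw [Metric.mem_ball, Real.dist_eq, sub_zero]; linarith)
  rw [Real.dist_eq, Real.dist_eq] at h
  refine h.trans_eq ?_
  rw [Real.coe_toNNReal _ (by positivity)]
  simp

end Helper69.CRem
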