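import Pool.Agent.Helper69.CRemB

open Set MeasureTheory Filter Topology

namespace Helper69.CRem

theorem aux_end {g : ℝ → ℝ} (hg : Continuous g) {ρ L κ d : ℝ} (hκ : 0 ≤ κ)
    (hd0 : -ρ ≤ d) (hd : d + 2 * κ ≤ ρ)
    (hL : ∀ x y, |x| ≤ ρ → |y| ≤ ρ → |g x - g y| ≤ L * |x - y|) :
    |(∫ x in (d + κ)..(d + 2 * κ), g x) - ∫ x in d..(d + κ), g x| ≤ L * κ ^ 2 := by
  have e1 : (∫ x in (d + κ)..(d + 2 * κ), g x) = ∫ x in d..(d + κ), g (x + κ) := by
    rw [intervalIntegral.integral_comp_add_right]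
    congr 1; ring
  rw [e1, ← intervalIntegral.integral_sub]
  · have := intervalIntegral.norm_integral_le_of_norm_le_const (a := d) (b := d + κ)
      (f := fun x => g (x + κ) - g x) (C := L * κ) (by
        intro x hx
        rw [uIoc_of_le (by linarith)] at hx
        have h1 := hL (x + κ) x (abs_le.mpr ⟨by linarith [hx.1], by linarith [hx.2]⟩)
          (abs_le.mpr ⟨by linarith [hx.1], by linarith [hx.2]⟩)
        rw [Real.norm_eq_abs]
        simpa [abs_of_nonneg hκ] using h1)
    rw [Real.norm_eq_abs] at this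
    refine this.trans_eq ?_
    rw [add_sub_cancel_left, abs_of_nonneg hκ]
    ring
  · exact (hg.comp (continuous_id.add continuous_const)).intervalIntegrable _ _
  · exact hg.intervalIntegrable _ _

theorem int1 {g : ℝ → ℝ} (hg : Continuous g) {ρ L κ c d : ℝ} (hκ : 0 ≤ κ) (hcd : c ≤ d)
    (hc : -ρ ≤ c) (hd : d + 2 * κ ≤ ρ)
    (hL : ∀ x y, |x| ≤ ρ → |y| ≤ ρ → |g x - g y| ≤ L * |x - y|)
    (H : ∀ x k, 0 ≤ g (x + k) + g (x - k) - 2 * g x) {X : Set ℝ} (hX : X ⊆ Icc c d) :
    ∫⁻ x in X, ENNReal.ofReal (g (x + 2 * κ) + g x - 2 * g (x + κ)) ≤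
      ENNReal.ofReal (2 * L * κ ^ 2) := by
  refine (lintegral_mono_set hX).trans ?_
  rw [← ofReal_integral_eq_lintegral_ofReal]
  · apply ENNReal.ofReal_le_ofReal
    rw [integral_Icc_eq_integral_Ioc, ← intervalIntegral.integral_of_le hcd]
    have i1 : ∀ a b, IntervalIntegrable g volume a b := fun a b => hg.intervalIntegrable a b
    have e : (∫ x in c..d, (g (x + 2 * κ) + g x - 2 * g (x + κ))) =
        (∫ x in (c + 2 * κ)..(d + 2 * κ), g x) + (∫ x in c..d, g x)
          - 2 * ∫ x in (c + κ)..(d + κ), g x := by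
      rw [intervalIntegral.integral_sub, intervalIntegral.integral_add,
        intervalIntegral.integral_const_mul, intervalIntegral.integral_comp_add_right,
        intervalIntegral.integral_comp_add_right]
      · exact (hg.comp (continuous_id.add continuous_const)).intervalIntegrable _ _
      · exact hg.intervalIntegrable _ _
      · exact ((hg.comp (continuous_id.add continuous_const)).add hg).intervalIntegrable _ _
      · exact (continuous_const.mul
          (hg.comp (continuous_id.add continuous_const))).intervalIntegrable _ _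
    rw [e]
    have a1 := intervalIntegral.integral_add_adjacent_intervals (i1 (c + 2 * κ) (d + κ))
      (i1 (d + κ) (d + 2 * κ))
    have a2 := intervalIntegral.integral_add_adjacent_intervals (i1 c (c + κ)) (i1 (c + κ) d)
    have a3 := intervalIntegral.integral_add_adjacent_intervals (i1 (c + κ) d) (i1 d (d + κ))
    have a4 := intervalIntegral.integral_add_adjacent_intervals (i1 (c + κ) (c + 2 * κ))
      (i1 (c + 2 * κ) (d + κ))
    have b1 := aux_end hg hκ (d := d) (by linarith) hd hL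
    have b2 := aux_end hg hκ (d := c) hc (by linarith) hL
    rw [abs_le] at b1 b2
    linarith [b1.1, b1.2, b2.1, b2.2]
  · have : Continuous fun x => g (x + 2 * κ) + g x - 2 * g (x + κ) := by fun_prop
    exact this.continuousOn.integrableOn_compact isCompact_Icc
  · apply Eventually.of_forall
    intro x
    have := H (x + κ) κ
    have e : x + κ + κ = x + 2 * κ := by ring
    rw [e, add_sub_cancel_right] at this
    exact this

/-- Standing data for the estimate: a continuous function with nonnegative horizontal and vertical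
second differences, Lipschitz with constant `L` in each variable on a square. -/
structure Data (f : ℝ × ℝ → ℝ) (ρ L : ℝ) : Prop where
  cont : Continuous f
  hor : ∀ x y k, 0 ≤ f (x + k, y) + f (x - k, y) - 2 * f (x, y)
  ver : ∀ x y k, 0 ≤ f (x, y + k) + f (x, y - k) - 2 * f (x, y)
  L0 : 0 ≤ L
  lipx : ∀ x x' y, |x| ≤ ρ → |x'| ≤ ρ → |y| ≤ ρ → |f (x, y) - f (x', y)| ≤ L * |x - x'|
  lipy : ∀ x y y', |x| ≤ ρ → |y| ≤ ρ → |y'| ≤ ρ → |f (x, y) - f (x, y')| ≤ L * |y - y'|

theorem exists_data {f : ℝ × ℝ → ℝ} {A B : Set ℝ} (hf : Continuous f) (hLC : LC f (A ×ˢ B))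
    (hA : Dense Aᶜ) (hB : Dense Bᶜ) {ρ : ℝ} (hρ : 0 < ρ) : ∃ L, Data f ρ L := by
  have hcomp : IsCompact (Icc (-(ρ + 2)) (ρ + 2) ×ˢ Icc (-(ρ + 2)) (ρ + 2)) :=
    isCompact_Icc.prod isCompact_Icc
  obtain ⟨M, hM⟩ := hcomp.exists_bound_of_continuousOn hf.continuousOn
  have hM0 : 0 ≤ M := by
    have := hM (0, 0) ⟨⟨by simp; linarith, by simp; linarith⟩, ⟨by simp; linarith, by simp; linarith⟩⟩
    exact (norm_nonneg _).trans this
  have hor := horiz_nonneg hf hLC hB
  have ver := vert_nonneg hf hLC hA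
  refine ⟨2 * M, hf, hor, ver, by positivity, ?_, ?_⟩
  · intro x x' y hx hx' hy
    refine lip_of_mid (g := fun x => f (x, y)) (by fun_prop) (fun x k => hor x y k) hρ ?_ x x' hx hx'
    intro x hx
    have := hM (x, y) ⟨abs_le.mp hx, abs_le.mp (by linarith)⟩
    simpa using this
  · intro x y y' hx hy hy'
    refine lip_of_mid (g := fun y => f (x, y)) (by fun_prop) (fun y k => ver x y k) hρ ?_ y y' hy hy'
    intro y hy
    have := hM (x, y) ⟨abs_le.mp (by linarith), abs_le.mp hy⟩
    simpa using this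

theorem Sq_nonneg {f : ℝ × ℝ → ℝ} {ρ L : ℝ} (D : Data f ρ L) (k : ℝ) (z : ℝ × ℝ) :
    0 ≤ Sq f k z := by
  have h1 := D.hor (z.1 + k / 2) z.2 (k / 2)
  have h2 := D.hor (z.1 + k / 2) (z.2 + k) (k / 2)
  have h3 := D.ver (z.1 + k / 2) (z.2 + k / 2) (k / 2)
  have e1 : z.1 + k / 2 + k / 2 = z.1 + k := by ring
  have e2 : z.2 + k / 2 + k / 2 = z.2 + k := by ring
  rw [e1, add_sub_cancel_right] at h1 h2
  rw [e2, add_sub_cancel_right] at h3
  unfold Sq
  linarith

theorem Sq_int {f : ℝ × ℝ → ℝ} {ρ L : ℝ} (D : Data f ρ L) {k : ℝ} (hk : 0 ≤ k) {c : ℝ}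
    (hc0 : 0 ≤ c) (hc : c + k ≤ ρ)
    {X Y : Set ℝ}
    (hX : X ⊆ Icc (-c) c) (hY : Y ⊆ Icc (-c) c) :
    ∫⁻ z in X ×ˢ Y, ENNReal.ofReal (Sq f k z) ≤
      ENNReal.ofReal (L * k ^ 2) * (volume X + volume Y) := by
  have hf := D.cont
  have hL0 := D.L0
  have m1 : Continuous fun z : ℝ × ℝ =>
      f (z.1 + k, z.2) + f (z.1, z.2) - 2 * f (z.1 + k / 2, z.2) := by fun_prop
  have m2 : Continuous fun z : ℝ × ℝ =>
      f (z.1 + k, z.2 + k) + f (z.1, z.2 + k) - 2 * f (z.1 + k / 2, z.2 + k) := by fun_prop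
  have m3 : Continuous fun z : ℝ × ℝ =>
      2 * (f (z.1 + k / 2, z.2 + k) + f (z.1 + k / 2, z.2) - 2 * f (z.1 + k / 2, z.2 + k / 2)) := by
    fun_prop
  have step : ∀ z, ENNReal.ofReal (Sq f k z) ≤
      ENNReal.ofReal (f (z.1 + k, z.2) + f (z.1, z.2) - 2 * f (z.1 + k / 2, z.2)) +
      ENNReal.ofReal (f (z.1 + k, z.2 + k) + f (z.1, z.2 + k) - 2 * f (z.1 + k / 2, z.2 + k)) +
      ENNReal.ofReal (2 * (f (z.1 + k / 2, z.2 + k) + f (z.1 + k / 2, z.2)
        - 2 * f (z.1 + k / 2, z.2 + k / 2))) := by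
    intro z
    exact (ENNReal.ofReal_add_le).trans (add_le_add_left ENNReal.ofReal_add_le _)
  have t1 : ∫⁻ z in X ×ˢ Y, ENNReal.ofReal
      (f (z.1 + k, z.2) + f (z.1, z.2) - 2 * f (z.1 + k / 2, z.2)) ≤
      ENNReal.ofReal (L * k ^ 2 / 2) * volume Y := by
    rw [Measure.volume_eq_prod, ← Measure.prod_restrict,
      lintegral_prod_symm _ (m1.measurable.ennreal_ofReal.aemeasurable), ← setLIntegral_const]
    refine setLIntegral_mono measurable_const ?_
    intro y hy
    have hy' := hY hy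
    have := int1 (g := fun x => f (x, y)) (by fun_prop) (ρ := ρ) (L := L) (κ := k / 2)
      (c := -c) (d := c) (by positivity) (by linarith) (by linarith) (by linarith)
      (fun x x' hx hx' => D.lipx x x' y hx hx' (abs_le.mpr ⟨by linarith [hy'.1], by linarith [hy'.2]⟩))
      (fun x k => D.hor x y k) hX
    have e : 2 * (k / 2) = k := by ring
    have e' : 2 * L * (k / 2) ^ 2 = L * k ^ 2 / 2 := by ring
    rw [e, e'] at this
    exact this
  have t2 : ∫⁻ z in X ×ˢ Y, ENNReal.ofReal
      (f (z.1 + k, z.2 + k) + f (z.1, z.2 + k) - 2 * f (z.1 + k / 2, z.2 + k)) ≤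
      ENNReal.ofReal (L * k ^ 2 / 2) * volume Y := by
    rw [Measure.volume_eq_prod, ← Measure.prod_restrict,
      lintegral_prod_symm _ (m2.measurable.ennreal_ofReal.aemeasurable), ← setLIntegral_const]
    refine setLIntegral_mono measurable_const ?_
    intro y hy
    have hy' := hY hy
    have := int1 (g := fun x => f (x, y + k)) (by fun_prop) (ρ := ρ) (L := L) (κ := k / 2)
      (c := -c) (d := c) (by positivity) (by linarith) (by linarith) (by linarith)
      (fun x x' hx hx' => D.lipx x x' (y + k) hx hx'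
        (abs_le.mpr ⟨by linarith [hy'.1], by linarith [hy'.2]⟩))
      (fun x k' => D.hor x (y + k) k') hX
    have e : 2 * (k / 2) = k := by ring
    have e' : 2 * L * (k / 2) ^ 2 = L * k ^ 2 / 2 := by ring
    rw [e, e'] at this
    exact this
  have t3 : ∫⁻ z in X ×ˢ Y, ENNReal.ofReal
      (2 * (f (z.1 + k / 2, z.2 + k) + f (z.1 + k / 2, z.2)
        - 2 * f (z.1 + k / 2, z.2 + k / 2))) ≤
      ENNReal.ofReal (L * k ^ 2) * volume X := by
    rw [Measure.volume_eq_prod, ← Measure.prod_restrict,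
      lintegral_prod _ (m3.measurable.ennreal_ofReal.aemeasurable), ← setLIntegral_const]
    refine setLIntegral_mono measurable_const ?_
    intro x hx
    have hx' := hX hx
    have := int1 (g := fun y => f (x + k / 2, y)) (by fun_prop) (ρ := ρ) (L := L) (κ := k / 2)
      (c := -c) (d := c) (by positivity) (by linarith) (by linarith) (by linarith)
      (fun y y' hy hy' => D.lipy (x + k / 2) y y'
        (abs_le.mpr ⟨by linarith [hx'.1], by linarith [hx'.2]⟩) hy hy')
      (fun y k' => D.ver (x + k / 2) y k') hY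
    have e : 2 * (k / 2) = k := by ring
    have e' : ENNReal.ofReal (L * k ^ 2) = 2 * ENNReal.ofReal (2 * L * (k / 2) ^ 2) := by
      rw [← ENNReal.ofReal_ofNat, ← ENNReal.ofReal_mul (by norm_num)]
      congr 1; ring
    rw [e] at this
    rw [e']
    simp only [ENNReal.ofReal_mul (show (0:ℝ) ≤ 2 by norm_num), ENNReal.ofReal_ofNat]
    rw [lintegral_const_mul]
    · refine mul_le_mul_right ?_ 2
      refine this.trans_eq ?_
      rw [mul_assoc, ENNReal.ofReal_mul (show (0:ℝ) ≤ 2 by norm_num), ENNReal.ofReal_ofNat]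
    · apply Measurable.ennreal_ofReal
      apply Continuous.measurable
      fun_prop
  calc ∫⁻ z in X ×ˢ Y, ENNReal.ofReal (Sq f k z) ≤ _ := lintegral_mono (fun z => step z)
    _ = _ := by
        rw [lintegral_add_left, lintegral_add_left]
        · exact m1.measurable.ennreal_ofReal
        · exact m1.measurable.ennreal_ofReal.add m2.measurable.ennreal_ofReal
    _ ≤ _ := add_le_add (add_le_add t1 t2) t3
    _ = _ := by
        rw [← add_mul, ← ENNReal.ofReal_add (by positivity) (by positivity)]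
        have : L * k ^ 2 / 2 + L * k ^ 2 / 2 = L * k ^ 2 := by ring
        rw [this]
        ring

end Helper69.CRem
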