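import Pool.Agent.Helper69.CRemC

open Set MeasureTheory Filter Topology

namespace Helper69.CRem

theorem Dxy_split (f : ℝ × ℝ → ℝ) (m : ℕ) (k b : ℝ) (z : ℝ × ℝ) :
    Dxy f (m * k) b z = ∑ i ∈ Finset.range m, Dxy f k b (z.1 + i * k, z.2) := by
  induction m with
  | zero => simp [Dxy]
  | succ n ih =>
    rw [Finset.sum_range_succ, ← ih]
    unfold Dxy
    have e : z.1 + n * k + k = z.1 + ((n + 1 : ℕ) : ℝ) * k := by push_cast; ring
    simp only [e]
    ring

theorem Dxy_split_y (f : ℝ × ℝ → ℝ) (m : ℕ) (k : ℝ) (z : ℝ × ℝ) :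
    Dxy f k (m * k) z = ∑ j ∈ Finset.range m, Dxy f k k (z.1, z.2 + j * k) := by
  induction m with
  | zero => simp [Dxy]
  | succ n ih =>
    rw [Finset.sum_range_succ, ← ih]
    unfold Dxy
    have e : z.2 + n * k + k = z.2 + ((n + 1 : ℕ) : ℝ) * k := by push_cast; ring
    simp only [e]
    ring

theorem Dxy_ptwise {f : ℝ × ℝ → ℝ} {A B : Set ℝ} {ρ L : ℝ} (D : Data f ρ L)
    (hLC : LC f (A ×ˢ B)) {m : ℕ} {k c : ℝ} (hk : 0 ≤ k) (hc : c + m * k ≤ ρ)
    (z : ℝ × ℝ) (hz1 : |z.1| ≤ c) (hz2 : |z.2| ≤ c) :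
    ENNReal.ofReal |Dxy f (m * k) (m * k) z| ≤
      ∑ i ∈ Finset.range m, ((∑ j ∈ Finset.range m,
        ENNReal.ofReal (Sq f k (z + ((i : ℝ) * k, (j : ℝ) * k)))) +
        ENNReal.ofReal (2 * L * k) *
          (Metric.cthickening k A ×ˢ (univ : Set ℝ)).indicator 1 (z + ((i : ℝ) * k, 0))) := by
  have hL0 := D.L0
  rw [Dxy_split]
  have h1 : |∑ i ∈ Finset.range m, Dxy f k (m * k) (z.1 + i * k, z.2)| ≤
      ∑ i ∈ Finset.range m, |Dxy f k (m * k) (z.1 + i * k, z.2)| :=
    Finset.abs_sum_le_sum_abs _ _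
  refine (ENNReal.ofReal_le_ofReal h1).trans ?_
  rw [ENNReal.ofReal_sum_of_nonneg (fun i _ => abs_nonneg _)]
  apply Finset.sum_le_sum
  intro i hi
  have him : (i : ℝ) + 1 ≤ m := by
    have := Finset.mem_range.mp hi
    exact_mod_cast this
  have hik : (i : ℝ) * k + k ≤ m * k := by nlinarith
  have hik0 : 0 ≤ (i : ℝ) * k := by positivity
  by_cases hA : z.1 + i * k ∈ Metric.cthickening k A
  · refine le_trans ?_ le_add_self
    have hmem : z + ((i : ℝ) * k, (0:ℝ)) ∈ Metric.cthickening k A ×ˢ (univ : Set ℝ) := by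
      refine ⟨?_, mem_univ _⟩
      simpa using hA
    rw [indicator_of_mem hmem, Pi.one_apply, mul_one]
    apply ENNReal.ofReal_le_ofReal
    rw [abs_le] at hz1 hz2
    have l1 := D.lipx (z.1 + i * k + k) (z.1 + i * k) (z.2 + m * k)
      (abs_le.mpr ⟨by linarith, by linarith⟩) (abs_le.mpr ⟨by linarith, by linarith⟩)
      (abs_le.mpr ⟨by linarith, by linarith⟩)
    have l2 := D.lipx (z.1 + i * k + k) (z.1 + i * k) z.2
      (abs_le.mpr ⟨by linarith, by linarith⟩) (abs_le.mpr ⟨by linarith, by linarith⟩)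
      (abs_le.mpr ⟨by linarith, by linarith⟩)
    rw [add_sub_cancel_left, abs_of_nonneg hk, abs_le] at l1 l2
    unfold Dxy
    simp only
    rw [abs_le]
    constructor <;> linarith [l1.1, l1.2, l2.1, l2.2]
  · refine le_trans ?_ le_self_add
    rw [Dxy_split_y]
    refine (ENNReal.ofReal_le_ofReal (Finset.abs_sum_le_sum_abs _ _)).trans ?_
    rw [ENNReal.ofReal_sum_of_nonneg (fun i _ => abs_nonneg _)]
    apply Finset.sum_le_sum
    intro j _
    apply ENNReal.ofReal_le_ofReal
    have hz : z + ((i : ℝ) * k, (j : ℝ) * k) = (z.1 + i * k, z.2 + j * k) := by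
      ext <;> simp
    rw [hz]
    apply Dxy_le_Sq D.cont hLC hk
    intro x hx hxA
    apply hA
    apply Metric.mem_cthickening_of_dist_le _ x _ _ hxA
    rw [Real.dist_eq, abs_le]
    simp only [mem_Icc] at hx
    constructor <;> linarith [hx.1, hx.2]

theorem shift_le {G : ℝ × ℝ → ENNReal} {s s' : Set (ℝ × ℝ)} (hs : MeasurableSet s)
    (hs' : MeasurableSet s') (v : ℝ × ℝ) (h : ∀ z ∈ s, z + v ∈ s') :
    ∫⁻ z in s, G (z + v) ≤ ∫⁻ z in s', G z := by
  rw [← lintegral_indicator hs, ← lintegral_indicator hs',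
    ← lintegral_add_right_eq_self (s'.indicator G) v]
  apply lintegral_mono
  intro z
  show s.indicator (fun z => G (z + v)) z ≤ s'.indicator G (z + v)
  by_cases hz : z ∈ s
  · rw [indicator_of_mem hz, indicator_of_mem (h z hz)]
  · rw [indicator_of_notMem hz]
    exact bot_le

theorem Dxy_int_le {f : ℝ × ℝ → ℝ} {A B : Set ℝ} {ρ L : ℝ} (D : Data f ρ L)
    (hLC : LC f (A ×ˢ B)) {m : ℕ} {k c : ℝ} (hk : 0 ≤ k) (hc0 : 0 ≤ c) (hc : c + 2 * (m * k) ≤ ρ)
    (hmk : k ≤ m * k)
    {X Y X' Y' : Set ℝ} (hXm : MeasurableSet X) (hYm : MeasurableSet Y)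
    (hXm' : MeasurableSet X') (hYm' : MeasurableSet Y')
    (hX : X ⊆ Icc (-c) c) (hY : Y ⊆ Icc (-c) c)
    (hX' : X' ⊆ Icc (-(c + m * k)) (c + m * k)) (hY' : Y' ⊆ Icc (-(c + m * k)) (c + m * k))
    (hXX' : ∀ x ∈ X, ∀ t, 0 ≤ t → t ≤ m * k → x + t ∈ X')
    (hYY' : ∀ y ∈ Y, ∀ t, 0 ≤ t → t ≤ m * k → y + t ∈ Y') :
    ∫⁻ z in X ×ˢ Y, ENNReal.ofReal |Dxy f (m * k) (m * k) z| ≤
      ENNReal.ofReal (L * (m * k) ^ 2) * (volume X' + volume Y') +
      ENNReal.ofReal (2 * L * (m * k)) * (volume (Metric.cthickening k A) * volume Y) := by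
  have hL0 := D.L0
  have hf := D.cont
  have hmk0 : 0 ≤ m * k := by positivity
  have hSc : Continuous (Sq f k) := by unfold Sq; fun_prop
  have hTm : MeasurableSet (Metric.cthickening k A ×ˢ (univ : Set ℝ)) :=
    Metric.isClosed_cthickening.measurableSet.prod MeasurableSet.univ
  have h1 : ∫⁻ z in X ×ˢ Y, ENNReal.ofReal |Dxy f (m * k) (m * k) z| ≤
      ∫⁻ z in X ×ˢ Y, ∑ i ∈ Finset.range m, ((∑ j ∈ Finset.range m,
        ENNReal.ofReal (Sq f k (z + ((i : ℝ) * k, (j : ℝ) * k)))) +
        ENNReal.ofReal (2 * L * k) *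
          (Metric.cthickening k A ×ˢ (univ : Set ℝ)).indicator 1 (z + ((i : ℝ) * k, 0))) := by
    apply setLIntegral_mono' (hXm.prod hYm)
    intro z hz
    exact Dxy_ptwise D hLC hk (by linarith) z (abs_le.mpr (hX hz.1)) (abs_le.mpr (hY hz.2))
  refine h1.trans ?_
  have mS : ∀ v : ℝ × ℝ, Measurable fun z => ENNReal.ofReal (Sq f k (z + v)) := by
    intro v
    exact (hSc.comp (continuous_id.add continuous_const)).measurable.ennreal_ofReal
  have mI : ∀ v : ℝ × ℝ, Measurable fun z : ℝ × ℝ =>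
      (Metric.cthickening k A ×ˢ (univ : Set ℝ)).indicator (1 : ℝ × ℝ → ENNReal) (z + v) := by
    intro v
    exact (measurable_one.indicator hTm).comp (measurable_id.add_const v)
  rw [lintegral_finsetSum]
  · have h2 : ∀ i ∈ Finset.range m, ∫⁻ z in X ×ˢ Y, ((∑ j ∈ Finset.range m,
        ENNReal.ofReal (Sq f k (z + ((i : ℝ) * k, (j : ℝ) * k)))) +
        ENNReal.ofReal (2 * L * k) *
          (Metric.cthickening k A ×ˢ (univ : Set ℝ)).indicator 1 (z + ((i : ℝ) * k, 0))) ≤
        m * (ENNReal.ofReal (L * k ^ 2) * (volume X' + volume Y')) +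
        ENNReal.ofReal (2 * L * k) * (volume (Metric.cthickening k A) * volume Y) := by
      intro i hi
      have him : (i : ℝ) + 1 ≤ m := by
        have := Finset.mem_range.mp hi
        exact_mod_cast this
      have hik : (i : ℝ) * k ≤ m * k := by nlinarith
      have hik0 : 0 ≤ (i : ℝ) * k := by positivity
      rw [lintegral_add_left (Finset.measurable_sum _ (fun j _ => mS _)),
        lintegral_finsetSum _ (fun j _ => mS _), lintegral_const_mul _ (mI _)]
      apply add_le_add
      · have h3 : ∀ j ∈ Finset.range m, ∫⁻ z in X ×ˢ Y,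
            ENNReal.ofReal (Sq f k (z + ((i : ℝ) * k, (j : ℝ) * k))) ≤
            ENNReal.ofReal (L * k ^ 2) * (volume X' + volume Y') := by
          intro j hj
          have hjm : (j : ℝ) + 1 ≤ m := by
            have := Finset.mem_range.mp hj
            exact_mod_cast this
          have hjk : (j : ℝ) * k ≤ m * k := by nlinarith
          have hjk0 : 0 ≤ (j : ℝ) * k := by positivity
          refine (shift_le (G := fun z => ENNReal.ofReal (Sq f k z)) (hXm.prod hYm)
            (hXm'.prod hYm') _ ?_).trans ?_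
          · intro z hz
            exact ⟨hXX' _ hz.1 _ hik0 hik, hYY' _ hz.2 _ hjk0 hjk⟩
          · exact Sq_int D hk (c := c + m * k) (by linarith) (by linarith) hX' hY'
        refine (Finset.sum_le_sum h3).trans ?_
        simp
      · refine mul_le_mul_right ?_ _
        have h4 : ∀ z : ℝ × ℝ, (Metric.cthickening k A ×ˢ (univ : Set ℝ)).indicator
            (1 : ℝ × ℝ → ENNReal) (z + ((i : ℝ) * k, 0)) =
            ((fun x : ℝ => x + i * k) ⁻¹' (Metric.cthickening k A)).indicator
              (1 : ℝ → ENNReal) z.1 := by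
          intro z
          by_cases h : z.1 + i * k ∈ Metric.cthickening k A
          · rw [indicator_of_mem, indicator_of_mem]
            · rfl
            · exact h
            · exact ⟨by simpa using h, mem_univ _⟩
          · rw [indicator_of_notMem, indicator_of_notMem]
            · exact h
            · intro h'
              apply h
              simpa using h'.1
        simp_rw [h4]
        rw [Measure.volume_eq_prod, ← Measure.prod_restrict]
        have hm6 : MeasurableSet ((fun x : ℝ => x + i * k) ⁻¹' (Metric.cthickening k A)) :=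
          (measurable_id.add_const _) Metric.isClosed_cthickening.measurableSet
        have hm5 : Measurable fun x : ℝ => ((fun x : ℝ => x + i * k) ⁻¹'
            (Metric.cthickening k A)).indicator (1 : ℝ → ENNReal) x :=
          measurable_one.indicator hm6
        rw [lintegral_prod _ (by exact (hm5.comp measurable_fst).aemeasurable)]
        simp only [lintegral_const, Measure.restrict_apply MeasurableSet.univ, univ_inter]
        rw [lintegral_mul_const _ hm5]
        refine mul_le_mul_left ?_ _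
        refine (setLIntegral_le_lintegral _ _).trans ?_
        rw [lintegral_indicator_one hm6, measure_preimage_add_right]
    refine (Finset.sum_le_sum h2).trans ?_
    rw [Finset.sum_const, Finset.card_range, nsmul_eq_mul, mul_add]
    apply add_le_add
    · rw [← mul_assoc, ← mul_assoc]
      apply le_of_eq
      congr 1
      have : L * (m * k) ^ 2 = (m * m) * (L * k ^ 2) := by ring
      rw [this, ENNReal.ofReal_mul (show (0:ℝ) ≤ (m:ℝ) * m by positivity),
        ENNReal.ofReal_mul (show (0:ℝ) ≤ (m:ℝ) by positivity), ENNReal.ofReal_natCast]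
    · rw [← mul_assoc]
      apply le_of_eq
      congr 1
      have : 2 * L * (m * k) = m * (2 * L * k) := by ring
      rw [this, ENNReal.ofReal_mul (show (0:ℝ) ≤ (m:ℝ) by positivity), ENNReal.ofReal_natCast]
  · intro i _
    exact (Finset.measurable_sum _ (fun j _ => mS _)).add ((mI _).const_mul _)

end Helper69.CRem
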