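import Pool.Agent.Helper69.CRemD

open Set MeasureTheory Filter Topology

namespace Helper69.CRem

/-- measures of small closed neighbourhoods -/
noncomputable def W (A B : Set ℝ) (h : ℝ) : ENNReal :=
  volume (Metric.cthickening (3 * h) A) + volume (Metric.cthickening (3 * h) B)

theorem W_ne_top {A B : Set ℝ} (hA : IsCompact A) (hB : IsCompact B) (h : ℝ) : W A B h ≠ ⊤ :=
  ENNReal.add_ne_top.mpr ⟨hA.cthickening.measure_lt_top.ne, hB.cthickening.measure_lt_top.ne⟩

theorem W_tendsto {A B : Set ℝ} (hA : IsCompact A) (hB : IsCompact B) (hA0 : volume A = 0)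
    (hB0 : volume B = 0) : Tendsto (fun h => (W A B h).toReal) (𝓝 0) (𝓝 0) := by
  have h3 : Tendsto (fun h : ℝ => 3 * h) (𝓝 0) (𝓝 0) := by
    have : Tendsto (fun h : ℝ => 3 * h) (𝓝 0) (𝓝 (3 * 0)) := tendsto_id.const_mul 3
    simpa using this
  have t1 := (tendsto_measure_cthickening_of_isCompact (μ := volume) hA).comp h3
  have t2 := (tendsto_measure_cthickening_of_isCompact (μ := volume) hB).comp h3
  rw [hA0] at t1
  rw [hB0] at t2
  have t3 := t1.add t2
  rw [add_zero] at t3
  have := (ENNReal.tendsto_toReal ENNReal.zero_ne_top).comp t3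
  simpa [W, Function.comp_def] using this

theorem thick_add {A : Set ℝ} {a b x t : ℝ} (ha : 0 ≤ a) (ht : |t| ≤ b)
    (hx : x ∈ Metric.cthickening a A) : x + t ∈ Metric.cthickening (a + b) A := by
  have hb : 0 ≤ b := (abs_nonneg _).trans ht
  rw [Metric.mem_cthickening_iff] at hx ⊢
  have h1 : Metric.infEDist (x + t) A ≤ edist (x + t) x + Metric.infEDist x A := by
    exact Metric.infEDist_le_edist_add_infEDist
  have h2 : edist (x + t) x ≤ ENNReal.ofReal b := by
    rw [edist_dist, Real.dist_eq, add_sub_cancel_left]
    exact ENNReal.ofReal_le_ofReal ht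
  calc _ ≤ _ := h1
    _ ≤ ENNReal.ofReal b + ENNReal.ofReal a := add_le_add h2 hx
    _ = ENNReal.ofReal (a + b) := by rw [add_comm, ENNReal.ofReal_add ha hb]

theorem thick_sub {A : Set ℝ} {R a : ℝ} (hA : IsCompact A) (hAR : A ⊆ Icc (-R) R) (ha : 0 ≤ a) :
    Metric.cthickening a A ⊆ Icc (-(R + a)) (R + a) := by
  intro x hx
  rw [hA.cthickening_eq_biUnion_closedBall ha] at hx
  simp only [mem_iUnion, Metric.mem_closedBall, Real.dist_eq, exists_prop] at hx
  obtain ⟨y, hy, hxy⟩ := hx
  have := hAR hy
  rw [abs_le] at hxy
  exact ⟨by linarith [this.1], by linarith [this.2]⟩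

theorem Dxy_limit {f : ℝ × ℝ → ℝ} {A B : Set ℝ} {R L h : ℝ} (hR : 0 ≤ R)
    (hA : IsCompact A) (hB : IsCompact B) (hA0 : volume A = 0)
    (hAR : A ⊆ Icc (-R) R) (hBR : B ⊆ Icc (-R) R)
    (D : Data f (R + 4) L) (hLC : LC f (A ×ˢ B)) (h0 : 0 < h) (h1 : h ≤ 1) :
    ∫⁻ z in Metric.cthickening (2 * h) A ×ˢ Metric.cthickening (2 * h) B,
      ENNReal.ofReal |Dxy f h h z| ≤ ENNReal.ofReal (L * h ^ 2) * W A B h := by
  have key : ∀ n : ℕ, ∫⁻ z in Metric.cthickening (2 * h) A ×ˢ Metric.cthickening (2 * h) B,
      ENNReal.ofReal |Dxy f h h z| ≤ ENNReal.ofReal (L * h ^ 2) * W A B h +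
      ENNReal.ofReal (2 * L * h) * (volume (Metric.cthickening (h * (1 / ((n : ℝ) + 1))) A) *
        volume (Metric.cthickening (2 * h) B)) := by
    intro n
    have e : ((n + 1 : ℕ) : ℝ) * (h * (1 / ((n : ℝ) + 1))) = h := by
      push_cast; field_simp
    have hk0 : 0 ≤ h * (1 / ((n : ℝ) + 1)) := by positivity
    have hkh : h * (1 / ((n : ℝ) + 1)) ≤ h := by
      have : 1 / ((n : ℝ) + 1) ≤ 1 := by
        rw [div_le_one (by positivity)]
        have : (0:ℝ) ≤ n := Nat.cast_nonneg n
        linarith
      nlinarith
    have := Dxy_int_le (m := n + 1) (k := h * (1 / ((n : ℝ) + 1))) (c := R + 2 * h)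
      (X := Metric.cthickening (2 * h) A) (Y := Metric.cthickening (2 * h) B)
      (X' := Metric.cthickening (3 * h) A) (Y' := Metric.cthickening (3 * h) B)
      D hLC hk0 (by linarith) (by rw [e]; linarith) (by rw [e]; exact hkh)
      Metric.isClosed_cthickening.measurableSet Metric.isClosed_cthickening.measurableSet
      Metric.isClosed_cthickening.measurableSet Metric.isClosed_cthickening.measurableSet
      (thick_sub hA hAR (by linarith)) (thick_sub hB hBR (by linarith))
      (by rw [e, show R + 2 * h + h = R + 3 * h by ring]; exact thick_sub hA hAR (by linarith))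
      (by rw [e, show R + 2 * h + h = R + 3 * h by ring]; exact thick_sub hB hBR (by linarith))
      (by
        rw [e]
        intro x hx t ht0 ht
        rw [show 3 * h = 2 * h + h by ring]
        exact thick_add (by linarith) (abs_le.mpr ⟨by linarith, ht⟩) hx)
      (by
        rw [e]
        intro x hx t ht0 ht
        rw [show 3 * h = 2 * h + h by ring]
        exact thick_add (by linarith) (abs_le.mpr ⟨by linarith, ht⟩) hx)
    rw [e] at this
    exact this
  have lim : Tendsto (fun n : ℕ => ENNReal.ofReal (L * h ^ 2) * W A B h +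
      ENNReal.ofReal (2 * L * h) * (volume (Metric.cthickening (h * (1 / ((n : ℝ) + 1))) A) *
        volume (Metric.cthickening (2 * h) B))) atTop
      (𝓝 (ENNReal.ofReal (L * h ^ 2) * W A B h +
      ENNReal.ofReal (2 * L * h) * (0 * volume (Metric.cthickening (2 * h) B)))) := by
    apply Tendsto.const_add
    apply ENNReal.Tendsto.const_mul _ (Or.inr ENNReal.ofReal_ne_top)
    apply ENNReal.Tendsto.mul_const _ (Or.inr hB.cthickening.measure_lt_top.ne)
    have t0 : Tendsto (fun n : ℕ => h * (1 / ((n : ℝ) + 1))) atTop (𝓝 0) := by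
      have := (tendsto_one_div_add_atTop_nhds_zero_nat (𝕜 := ℝ)).const_mul h
      simpa using this
    have t1 := (tendsto_measure_cthickening_of_isCompact (μ := volume) hA).comp t0
    rw [hA0] at t1
    exact t1
  have := ge_of_tendsto' lim key
  simpa using this

/-- lower bound of the averaged diagonal second difference -/
theorem diag_lower {f : ℝ × ℝ → ℝ} {A B : Set ℝ} {R L h : ℝ} (hR : 0 ≤ R)
    (hA : IsCompact A) (hB : IsCompact B) (hA0 : volume A = 0)
    (hAR : A ⊆ Icc (-R) R) (hBR : B ⊆ Icc (-R) R)
    (D : Data f (R + 4) L) (hLC : LC f (A ×ˢ B)) (h0 : 0 < h) (h1 : h ≤ 1)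
    {P : Set (ℝ × ℝ)} (hP : IsCompact P) (v : ℝ × ℝ) :
    -(2 * (L * h ^ 2 * (W A B h).toReal)) ≤
      ∫ w in P, (f (w + v + (h, h)) + f (w + v - (h, h)) - 2 * f (w + v)) := by
  have hf := D.cont
  have hL0 := D.L0
  set T : Set (ℝ × ℝ) := Metric.cthickening h A ×ˢ Metric.cthickening h B with hT
  set Q : Set (ℝ × ℝ) := Metric.cthickening (2 * h) A ×ˢ Metric.cthickening (2 * h) B with hQ
  have hTc : IsCompact T := hA.cthickening.prod hB.cthickening
  have hQc : IsCompact Q := hA.cthickening.prod hB.cthickening
  have hDc : Continuous (Dxy f h h) := by unfold Dxy; fun_prop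
  set G : ℝ × ℝ → ℝ := fun z => |Dxy f h h z| + |Dxy f h h (z - (h, h))| with hG
  have hGc : Continuous G := by
    apply Continuous.add hDc.abs
    exact (hDc.comp (continuous_id.sub continuous_const)).abs
  have hGi : Integrable (T.indicator G) := by
    rw [integrable_indicator_iff hTc.isClosed.measurableSet]
    exact hGc.continuousOn.integrableOn_compact hTc
  have ptw : ∀ z, -(T.indicator G z) ≤ f (z + (h, h)) + f (z - (h, h)) - 2 * f z := by
    intro z
    by_cases hz : z ∈ T
    · rw [indicator_of_mem hz]
      have a1 := D.hor z.1 z.2 h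
      have a2 := D.ver z.1 z.2 h
      have b1 := neg_abs_le (Dxy f h h z)
      have b2 := neg_abs_le (Dxy f h h (z - (h, h)))
      have e1 : z + (h, h) = (z.1 + h, z.2 + h) := rfl
      have e2 : z - (h, h) = (z.1 - h, z.2 - h) := rfl
      simp only [hG]
      rw [e2] at b2 ⊢
      rw [e1]
      unfold Dxy at b1 b2 ⊢
      simp only [sub_add_cancel] at b1 b2 ⊢
      have e3 : f z = f (z.1, z.2) := rfl
      rw [e3]
      linarith
    · rw [indicator_of_notMem hz, neg_zero]
      apply second_nonneg hf hLC z (h, h)
      intro t ht hmem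
      apply hz
      simp only [Prod.smul_mk, smul_eq_mul, mem_prod] at hmem
      have hth : |t * h| ≤ h := by
        rw [abs_mul, abs_of_pos h0]
        have := abs_le.mpr ht
        nlinarith
      refine ⟨Metric.mem_cthickening_of_dist_le _ _ _ _ hmem.1 ?_,
        Metric.mem_cthickening_of_dist_le _ _ _ _ hmem.2 ?_⟩
      · rw [Real.dist_eq]
        simpa [abs_sub_comm] using hth
      · rw [Real.dist_eq]
        simpa [abs_sub_comm] using hth
  have hPm : MeasurableSet P := hP.isClosed.measurableSet
  have hDi : IntegrableOn (fun w => f (w + v + (h, h)) + f (w + v - (h, h)) - 2 * f (w + v)) P :=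
    Continuous.continuousOn (by fun_prop) |>.integrableOn_compact hP
  have hshift : Integrable (fun w => T.indicator G (w + v)) := hGi.comp_add_right v
  have s1 : ∫ w in P, -(T.indicator G (w + v)) ≤
      ∫ w in P, (f (w + v + (h, h)) + f (w + v - (h, h)) - 2 * f (w + v)) := by
    apply setIntegral_mono_on hshift.neg.integrableOn hDi hPm
    intro w _
    exact ptw (w + v)
  have hGnn : ∀ z, 0 ≤ T.indicator G z := by
    intro z
    apply indicator_nonneg
    intro z _
    positivity
  have s2 : ∫ w in P, T.indicator G (w + v) ≤ ∫ w, T.indicator G (w + v) :=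
    setIntegral_le_integral hshift (Eventually.of_forall fun z => hGnn _)
  rw [integral_add_right_eq_self (μ := volume) (T.indicator G) v] at s2
  rw [integral_indicator hTc.isClosed.measurableSet] at s2
  have hlim := Dxy_limit hR hA hB hA0 hAR hBR D hLC h0 h1
  have hnum : ENNReal.ofReal (L * h ^ 2) * W A B h =
      ENNReal.ofReal (L * h ^ 2 * (W A B h).toReal) := by
    rw [ENNReal.ofReal_mul (show 0 ≤ L * h ^ 2 by positivity),
      ENNReal.ofReal_toReal (W_ne_top hA hB h)]
  rw [hnum] at hlim
  have hTQ : ∀ z ∈ T, z ∈ Q := by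
    intro z hz
    refine ⟨?_, ?_⟩
    · have := thick_add (b := h) (t := 0) h0.le (by simpa using h0.le) hz.1
      rw [add_zero, ← two_mul] at this
      exact this
    · have := thick_add (b := h) (t := 0) h0.le (by simpa using h0.le) hz.2
      rw [add_zero, ← two_mul] at this
      exact this
  have hTQ' : ∀ z ∈ T, z + (-h, -h) ∈ Q := by
    intro z hz
    refine ⟨?_, ?_⟩
    · have := thick_add (b := h) (t := -h) h0.le (by rw [abs_neg, abs_of_pos h0]) hz.1
      rw [← two_mul] at this
      exact this
    · have := thick_add (b := h) (t := -h) h0.le (by rw [abs_neg, abs_of_pos h0]) hz.2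
      rw [← two_mul] at this
      exact this
  have i1 : ∫ z in T, |Dxy f h h z| ≤ L * h ^ 2 * (W A B h).toReal := by
    rw [integral_eq_lintegral_of_nonneg_ae (Eventually.of_forall fun z => abs_nonneg _)
      hDc.abs.aestronglyMeasurable]
    apply ENNReal.toReal_le_of_le_ofReal (by positivity)
    refine le_trans ?_ hlim
    exact lintegral_mono_set hTQ
  have i2 : ∫ z in T, |Dxy f h h (z - (h, h))| ≤ L * h ^ 2 * (W A B h).toReal := by
    have hc2 : Continuous fun z : ℝ × ℝ => |Dxy f h h (z - (h, h))| :=
      (hDc.comp (continuous_id.sub continuous_const)).abs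
    rw [integral_eq_lintegral_of_nonneg_ae (Eventually.of_forall fun z => abs_nonneg _)
      hc2.aestronglyMeasurable]
    apply ENNReal.toReal_le_of_le_ofReal (by positivity)
    refine le_trans ?_ hlim
    have := shift_le (G := fun z => ENNReal.ofReal |Dxy f h h z|) (s := T) (s' := Q)
      hTc.isClosed.measurableSet hQc.isClosed.measurableSet (-h, -h) hTQ'
    refine le_trans (le_of_eq ?_) this
    apply lintegral_congr
    intro z
    have : z - (h, h) = z + (-h, -h) := by ext <;> simp [sub_eq_add_neg]
    rw [this]
  have i3 : ∫ z in T, G z = (∫ z in T, |Dxy f h h z|) + ∫ z in T, |Dxy f h h (z - (h, h))| := by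
    apply integral_add
    · exact hDc.abs.continuousOn.integrableOn_compact hTc
    · exact ((hDc.comp (continuous_id.sub continuous_const)).abs).continuousOn.integrableOn_compact
        hTc
  rw [integral_neg] at s1
  linarith

/-- nonnegativity of second differences in the diagonal direction -/
theorem diag_nonneg {f : ℝ × ℝ → ℝ} {A B : Set ℝ}
    (hA : IsCompact A) (hB : IsCompact B) (hA0 : volume A = 0) (hB0 : volume B = 0)
    (hf : Continuous f) (hLC : LC f (A ×ˢ B)) (z : ℝ × ℝ) (t : ℝ) :
    0 ≤ f (z + (t, t)) + f (z - (t, t)) - 2 * f z := by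
  wlog ht : 0 < t generalizing t
  · rcases eq_or_lt_of_le (not_lt.mp ht) with h | h
    · subst h
      have : ((0:ℝ), (0:ℝ)) = (0 : ℝ × ℝ) := rfl
      rw [this, add_zero, sub_zero]
      linarith
    · have := this (-t) (by linarith)
      have e1 : z + (-t, -t) = z - (t, t) := by ext <;> simp [sub_eq_add_neg]
      have e2 : z - (-t, -t) = z + (t, t) := by ext <;> simp [sub_eq_add_neg]
      rw [e1, e2] at this
      linarith
  have dA : Dense Aᶜ := by
    rw [← interior_eq_empty_iff_dense_compl]
    exact Measure.interior_eq_empty_of_null (μ := volume) hA0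
  have dB : Dense Bᶜ := by
    rw [← interior_eq_empty_iff_dense_compl]
    exact Measure.interior_eq_empty_of_null (μ := volume) hB0
  obtain ⟨R, hR0, hAR, hBR⟩ : ∃ R : ℝ, 0 ≤ R ∧ A ⊆ Icc (-R) R ∧ B ⊆ Icc (-R) R := by
    obtain ⟨r, hr⟩ := (hA.union hB).isBounded.subset_closedBall 0
    refine ⟨max r 0, le_max_right _ _, ?_, ?_⟩
    · intro x hx
      have := hr (Or.inl hx)
      rw [Metric.mem_closedBall, Real.dist_eq, sub_zero, abs_le] at this
      exact ⟨by linarith [this.1, le_max_left r 0], by linarith [this.2, le_max_left r 0]⟩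
    · intro x hx
      have := hr (Or.inr hx)
      rw [Metric.mem_closedBall, Real.dist_eq, sub_zero, abs_le] at this
      exact ⟨by linarith [this.1, le_max_left r 0], by linarith [this.2, le_max_left r 0]⟩
  obtain ⟨L, D⟩ := exists_data hf hLC dA dB (ρ := R + 4) (by linarith)
  have hL0 := D.L0
  by_contra hneg
  push Not at hneg
  set Φ : ℝ × ℝ → ℝ := fun w => f (w + z + (t, t)) + f (w + z - (t, t)) - 2 * f (w + z) with hΦ
  have hΦc : Continuous Φ := by fun_prop
  have hΦ0 : Φ 0 < 0 := by simpa [hΦ] using hneg
  obtain ⟨r, hr, hball⟩ := Metric.isOpen_iff.mp (isOpen_Iio.preimage hΦc) 0 hΦ0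
  set P : Set (ℝ × ℝ) := Metric.closedBall 0 (r / 2) with hPdef
  have hPc : IsCompact P := isCompact_closedBall _ _
  have hPneg : ∀ w ∈ P, Φ w < 0 := by
    intro w hw
    apply hball
    rw [Metric.mem_ball]
    rw [hPdef, Metric.mem_closedBall] at hw
    linarith
  -- the averaged function
  set F : ℝ → ℝ := fun s => ∫ w in P, f (w + z + (s, s)) with hF
  have hFc : Continuous F := by
    apply continuous_parametric_integral_of_continuous _ hPc
    fun_prop
  have hint : ∀ s, IntegrableOn (fun w => f (w + z + (s, s))) P := fun s =>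
    (Continuous.continuousOn (by fun_prop)).integrableOn_compact hPc
  have chord := chord_of_second_diff (g := F) (x := -t) (y := t) (by linarith) hFc.continuousOn ?_
    0 ⟨by linarith, by linarith⟩
  · have hsum : F t + F (-t) - 2 * F 0 = ∫ w in P, Φ w := by
      simp only [hF, hΦ]
      rw [integral_sub, integral_add, integral_const_mul]
      · have e1 : ∀ w : ℝ × ℝ, w + z + (-t, -t) = w + z - (t, t) := by
          intro w
          ext <;> simp [sub_eq_add_neg]
        have e2 : ∀ w : ℝ × ℝ, w + z + (0, 0) = w + z := by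
          intro w
          have : ((0:ℝ), (0:ℝ)) = (0 : ℝ × ℝ) := rfl
          rw [this, add_zero]
        simp only [e1, e2]
      · exact hint t
      · exact (Continuous.continuousOn (by fun_prop)).integrableOn_compact hPc
      · exact (Continuous.continuousOn (by fun_prop)).integrableOn_compact hPc
      · exact (Continuous.continuousOn (by fun_prop)).integrableOn_compact hPc
    have hge : 0 ≤ ∫ w in P, Φ w := by
      rw [← hsum]
      nlinarith
    have hlt : ∫ w in P, Φ w < 0 := by
      have hint' : IntegrableOn (fun w => -Φ w) P :=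
        (hΦc.neg).continuousOn.integrableOn_compact hPc
      have : 0 < ∫ w in P, -Φ w := by
        rw [setIntegral_pos_iff_support_of_nonneg_ae]
        · have hsub : P ⊆ Function.support (fun w => -Φ w) ∩ P := by
            intro w hw
            refine ⟨?_, hw⟩
            simp only [Function.mem_support, ne_eq, neg_eq_zero]
            exact (hPneg w hw).ne
          refine lt_of_lt_of_le ?_ (measure_mono hsub)
          exact Metric.measure_closedBall_pos _ _ (by linarith)
        · filter_upwards [ae_restrict_mem hPc.isClosed.measurableSet] with w hw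
          have := hPneg w hw
          simp only [Pi.zero_apply]
          linarith
        · exact hint'
      rw [integral_neg] at this
      linarith
    linarith
  · intro s _ ε hε δ hδ
    have hW := W_tendsto hA hB hA0 hB0
    have hev : ∀ᶠ h in 𝓝 (0:ℝ), 2 * L * (W A B h).toReal < ε := by
      have : Tendsto (fun h => 2 * L * (W A B h).toReal) (𝓝 0) (𝓝 (2 * L * 0)) :=
        hW.const_mul _
      rw [mul_zero] at this
      exact this.eventually_lt_const hε
    obtain ⟨r', hr', hb⟩ := Metric.eventually_nhds_iff.mp hev
    set h := min (min (r' / 2) (δ / 2)) 1 with hh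
    have hh0 : 0 < h := by positivity
    have hh1 : h ≤ 1 := min_le_right _ _
    have hhr : h ≤ r' / 2 := (min_le_left _ _).trans (min_le_left _ _)
    have hhδ : h ≤ δ / 2 := (min_le_left _ _).trans (min_le_right _ _)
    refine ⟨h, hh0, by linarith, ?_⟩
    have hsmall := hb (y := h) (by rw [Real.dist_eq, sub_zero, abs_of_pos hh0]; linarith)
    have hlow := diag_lower hR0 hA hB hA0 hAR hBR D hLC hh0 hh1 hPc (z + (s, s))
    have hsum : F (s + h) + F (s - h) - 2 * F s =
        ∫ w in P, (f (w + (z + (s, s)) + (h, h)) + f (w + (z + (s, s)) - (h, h))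
          - 2 * f (w + (z + (s, s)))) := by
      simp only [hF]
      rw [integral_sub, integral_add, integral_const_mul]
      · congr 1
        · congr 1
          · apply integral_congr_ae
            apply Eventually.of_forall
            intro w
            simp only
            congr 1
            ext <;> (simp; ring)
          · apply integral_congr_ae
            apply Eventually.of_forall
            intro w
            simp only
            congr 1
            ext <;> (simp; ring)
        · congr 1
          apply integral_congr_ae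
          apply Eventually.of_forall
          intro w
          simp only
          congr 1
          ext <;> (simp; ring)
      · exact (Continuous.continuousOn (by fun_prop)).integrableOn_compact hPc
      · exact (Continuous.continuousOn (by fun_prop)).integrableOn_compact hPc
      · exact (Continuous.continuousOn (by fun_prop)).integrableOn_compact hPc
      · exact (Continuous.continuousOn (by fun_prop)).integrableOn_compact hPc
    rw [hsum]
    refine le_trans ?_ hlow
    have hh2 : 0 < h ^ 2 := by positivity
    nlinarith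

end Helper69.CRem
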