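import Pool.Agent.Helper69.CRemE

open Set MeasureTheory Filter Topology

namespace Helper69.CRem

theorem all_nonneg {f : ℝ × ℝ → ℝ} {A B : Set ℝ}
    (hA : IsCompact A) (hB : IsCompact B) (hA0 : volume A = 0) (hB0 : volume B = 0)
    (hf : Continuous f) (hLC : LC f (A ×ˢ B)) (z v : ℝ × ℝ) :
    0 ≤ f (z + v) + f (z - v) - 2 * f z := by
  have dA : Dense Aᶜ := by
    rw [← interior_eq_empty_iff_dense_compl]
    exact Measure.interior_eq_empty_of_null (μ := volume) hA0
  have dB : Dense Bᶜ := by
    rw [← interior_eq_empty_iff_dense_compl]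
    exact Measure.interior_eq_empty_of_null (μ := volume) hB0
  obtain ⟨p, q⟩ := v
  by_cases hp : p = 0
  · subst hp
    have := vert_nonneg hf hLC dA z.1 z.2 q
    have e1 : z + (0, q) = (z.1, z.2 + q) := by ext <;> simp
    have e2 : z - (0, q) = (z.1, z.2 - q) := by ext <;> simp
    rw [e1, e2]
    exact this
  by_cases hq : q = 0
  · subst hq
    have := horiz_nonneg hf hLC dB z.1 z.2 p
    have e1 : z + (p, 0) = (z.1 + p, z.2) := by ext <;> simp
    have e2 : z - (p, 0) = (z.1 - p, z.2) := by ext <;> simp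
    rw [e1, e2]
    exact this
  -- rescale the axes
  let T : ℝ × ℝ →ₗ[ℝ] ℝ × ℝ :=
    LinearMap.prodMap (LinearMap.mulLeft ℝ p) (LinearMap.mulLeft ℝ q)
  have hT : ∀ w, T w = (p * w.1, q * w.2) := fun w => rfl
  have hTc : Continuous T := T.continuous_of_finiteDimensional
  have hA' : IsCompact ((fun x => p * x) ⁻¹' A) := by
    have := (Homeomorph.mulLeft₀ p hp).isCompact_preimage.mpr hA
    exact this
  have hB' : IsCompact ((fun x => q * x) ⁻¹' B) := by
    have := (Homeomorph.mulLeft₀ q hq).isCompact_preimage.mpr hB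
    exact this
  have hA0' : volume ((fun x => p * x) ⁻¹' A) = 0 := by
    rw [Real.volume_preimage_mul_left hp, hA0, mul_zero]
  have hB0' : volume ((fun x => q * x) ⁻¹' B) = 0 := by
    rw [Real.volume_preimage_mul_left hq, hB0, mul_zero]
  have hLC' : LC (f ∘ T) (((fun x => p * x) ⁻¹' A) ×ˢ ((fun x => q * x) ⁻¹' B)) := by
    intro w hw
    obtain ⟨V, hVo, hwV, hVc⟩ := hLC (T w) (by
      intro h
      exact hw h)
    exact ⟨T ⁻¹' V, hVo.preimage hTc, hwV, hVc.comp_linearMap T⟩
  have h := diag_nonneg hA' hB' hA0' hB0' (hf.comp hTc) hLC' (z.1 / p, z.2 / q) 1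
  simp only [Function.comp_apply, hT] at h
  have e1 : (p * ((z.1 / p, z.2 / q) + ((1:ℝ), (1:ℝ))).1, q * ((z.1 / p, z.2 / q) + ((1:ℝ), (1:ℝ))).2)
      = z + (p, q) := by
    ext
    · simp; field_simp
    · simp; field_simp
  have e2 : (p * ((z.1 / p, z.2 / q) - ((1:ℝ), (1:ℝ))).1, q * ((z.1 / p, z.2 / q) - ((1:ℝ), (1:ℝ))).2)
      = z - (p, q) := by
    ext
    · simp; field_simp
    · simp; field_simp
  have e3 : (p * (z.1 / p), q * (z.2 / q)) = z := by
    ext
    · simp; field_simp
    · simp; field_simp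
  rw [e1, e2, e3] at h
  exact h

/-- Main theorem in `ℝ × ℝ`: products of compact Lebesgue null sets are removable. -/
theorem convexOn_univ {f : ℝ × ℝ → ℝ} {A B : Set ℝ}
    (hA : IsCompact A) (hB : IsCompact B) (hA0 : volume A = 0) (hB0 : volume B = 0)
    (hf : Continuous f) (hLC : LC f (A ×ˢ B)) : ConvexOn ℝ univ f := by
  refine ⟨convex_univ, ?_⟩
  intro x _ y _ a b ha hb hab
  have hg : Continuous fun t : ℝ => f (x + t • (y - x)) := by fun_prop
  have hc := convexOn_of_mid (g := fun t : ℝ => f (x + t • (y - x))) hg (by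
    intro t k
    have := all_nonneg hA hB hA0 hB0 hf hLC (x + t • (y - x)) (k • (y - x))
    have e1 : x + (t + k) • (y - x) = x + t • (y - x) + k • (y - x) := by rw [add_smul]; abel
    have e2 : x + (t - k) • (y - x) = x + t • (y - x) - k • (y - x) := by rw [sub_smul]; abel
    show 0 ≤ f (x + (t + k) • (y - x)) + f (x + (t - k) • (y - x)) - 2 * f (x + t • (y - x))
    rw [e1, e2]
    exact this) 0 1
  have := hc.2 (x := 0) ⟨le_refl _, zero_le_one⟩ (y := 1) ⟨zero_le_one, le_refl _⟩ ha hb hab
  simp only [smul_eq_mul, mul_zero, mul_one, zero_add, zero_smul, add_zero, one_smul,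
    add_sub_cancel] at this
  have e : x + b • (y - x) = a • x + b • y := by
    have : a = 1 - b := by linarith
    subst this
    rw [smul_sub, sub_smul, one_smul]
    abel
  rw [e] at this
  simpa using this

/-- the Cantor set is Lebesgue null -/
theorem volume_preCantorSet_le (n : ℕ) : volume (preCantorSet n) ≤ ENNReal.ofReal ((2 / 3) ^ n) := by
  induction n with
  | zero => simp
  | succ n ih =>
    rw [preCantorSet_succ]
    refine (measure_union_le _ _).trans ?_
    have h1 : volume ((fun x : ℝ => x / 3) '' preCantorSet n) =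
        ENNReal.ofReal (1 / 3) * volume (preCantorSet n) := by
      have : (fun x : ℝ => x / 3) = fun x : ℝ => (1 / 3 : ℝ) • x := by
        ext x; simp; ring
      rw [this, image_smul, Measure.addHaar_smul]
      simp
    have h2 : volume ((fun x : ℝ => (2 + x) / 3) '' preCantorSet n) =
        ENNReal.ofReal (1 / 3) * volume (preCantorSet n) := by
      have : (fun x : ℝ => (2 + x) / 3) = (fun x : ℝ => (2 / 3 : ℝ) + x) ∘ (fun x : ℝ => x / 3) := by
        ext x; simp; ring
      rw [this, image_comp, ← h1, image_add_left, measure_preimage_add]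
    rw [h1, h2, ← add_mul, ← ENNReal.ofReal_add (by norm_num) (by norm_num)]
    refine (mul_le_mul_right ih _).trans ?_
    rw [← ENNReal.ofReal_mul (by norm_num)]
    apply ENNReal.ofReal_le_ofReal
    rw [pow_succ]
    have : (0:ℝ) ≤ (2/3)^n := by positivity
    linarith

theorem volume_cantorSet : volume cantorSet = 0 := by
  have h : ∀ n, volume cantorSet ≤ ENNReal.ofReal ((2 / 3) ^ n) := fun n =>
    (measure_mono (iInter_subset _ n)).trans (volume_preCantorSet_le n)
  have lim : Tendsto (fun n : ℕ => ENNReal.ofReal ((2 / 3 : ℝ) ^ n)) atTop (𝓝 (ENNReal.ofReal 0)) :=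
    ENNReal.tendsto_ofReal (tendsto_pow_atTop_nhds_zero_of_lt_one (by norm_num) (by norm_num))
  rw [ENNReal.ofReal_zero] at lim
  exact le_antisymm (ge_of_tendsto' lim h) bot_le

end Helper69.CRem
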