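import Mathlib

namespace KumWA

/-- the statement of H2 for the prime `p` -/
def CubicBound (p : ℕ) [Fact p.Prime] : Prop :=
  ∀ a b c d : ZMod p, a ≠ 0 →
    (¬ ∃ r, ∀ x, a * x ^ 3 + b * x ^ 2 + c * x + d = a * (x - r) ^ 3) →
    (∑ x : ZMod p, quadraticChar (ZMod p) (a * x ^ 3 + b * x ^ 2 + c * x + d)) ^ 4 * (p - 1) ^ 2 ≤
      9 * (p : ℤ) ^ 5

section H3

variable {p : ℕ} [Fact p.Prime]

lemma two_nonsquare (hp8 : p % 8 = 5) : ¬ IsSquare (2 : ZMod p) := by
  rw [ZMod.exists_sq_eq_two_iff (by omega)]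
  omega

lemma two_ne_zero' (hp : 10 ^ 5 < p) : (2 : ZMod p) ≠ 0 := by
  intro h
  have : ((2 : ℕ) : ZMod p) = 0 := by exact_mod_cast h
  rw [ZMod.natCast_eq_zero_iff] at this
  have := Nat.le_of_dvd (by norm_num) this
  omega

lemma three_ne_zero' (hp : 10 ^ 5 < p) : (3 : ZMod p) ≠ 0 := by
  intro h
  have : ((3 : ℕ) : ZMod p) = 0 := by exact_mod_cast h
  rw [ZMod.natCast_eq_zero_iff] at this
  have := Nat.le_of_dvd (by norm_num) this
  omega

/-- the quadratic form -/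
def Q (x y : ZMod p) : ZMod p := x ^ 2 - 6 * x * y + y ^ 2

lemma Q_ne_zero (hp8 : p % 8 = 5) (x y : ZMod p) (hy : y ≠ 0) : Q x y ≠ 0 := by
  intro h
  unfold Q at h
  apply two_nonsquare hp8
  by_cases h2 : (2 : ZMod p) = 0
  · exact ⟨0, by rw [h2]; simp⟩
  refine ⟨(x - 3 * y) / (2 * y), ?_⟩
  have h2y : (2 * y) ≠ 0 := mul_ne_zero h2 hy
  field_simp
  linear_combination -h

/-- the discriminant -/
def D (y₁ y₂ w : ZMod p) : ZMod p :=
  8 * y₂ ^ 2 * w ^ 2 + (y₁ ^ 2 - 18 * y₁ * y₂ + y₂ ^ 2) * w + 8 * y₁ ^ 2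

lemma card_fibre (hp : 10 ^ 5 < p) (y₁ y₂ : ZMod p) (hne : y₁ ≠ y₂) (w : ZMod p) :
    ((Finset.univ.filter (fun x : ZMod p => Q x y₁ = w * Q x y₂)).card : ℤ) =
      1 + quadraticChar (ZMod p) (D y₁ y₂ w) - if w = 1 then 1 else 0 := by
  have h2 := two_ne_zero' hp
  have h3 := three_ne_zero' hp
  have hchar : ringChar (ZMod p) ≠ 2 := by
    rw [ZMod.ringChar_zmod_n]; omega
  by_cases hw : w = 1
  · subst hw
    have hD : D y₁ y₂ 1 = (3 * (y₁ - y₂)) ^ 2 := by unfold D; ring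
    have hd0 : (3 * (y₁ - y₂)) ≠ 0 := mul_ne_zero h3 (sub_ne_zero.mpr hne)
    rw [hD, quadraticChar_sq_one' hd0]
    have : (Finset.univ.filter (fun x : ZMod p => Q x y₁ = 1 * Q x y₂)) =
        {(y₁ + y₂) / (2 * 3)} := by
      ext x
      simp only [Finset.mem_filter, Finset.mem_univ, true_and, Finset.mem_singleton]
      unfold Q
      rw [eq_div_iff (mul_ne_zero h2 h3)]
      constructor
      · intro h
        have : (y₁ - y₂) * (x * (2 * 3) - (y₁ + y₂)) = 0 := by linear_combination -h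
        rcases mul_eq_zero.mp this with h' | h'
        · exact absurd (sub_eq_zero.mp h') hne
        · exact sub_eq_zero.mp h'
      · intro h
        linear_combination -(y₁ - y₂) * h
    rw [this]
    simp
  · simp only [hw, if_false, sub_zero]
    have hA : (1 - w) ≠ 0 := sub_ne_zero.mpr (Ne.symm hw)
    rw [add_comm, ← quadraticChar_card_sqrts hchar]
    congr 1
    apply Finset.card_bij (fun x _ => (1 - w) * x - 3 * (y₁ - w * y₂))
    · intro x hx
      simp only [Finset.mem_filter, Finset.mem_univ, true_and] at hx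
      simp only [Set.mem_toFinset, Set.mem_ofPred_eq]
      unfold Q at hx
      unfold D
      linear_combination (1 - w) * hx
    · intro x _ x' _ h
      have : (1 - w) * (x - x') = 0 := by linear_combination h
      rcases mul_eq_zero.mp this with h' | h'
      · exact absurd h' hA
      · exact sub_eq_zero.mp h'
    · intro t ht
      simp only [Set.mem_toFinset, Set.mem_ofPred_eq] at ht
      refine ⟨(t + 3 * (y₁ - w * y₂)) / (1 - w), ?_, ?_⟩
      · simp only [Finset.mem_filter, Finset.mem_univ, true_and]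
        unfold Q
        unfold D at ht
        field_simp
        linear_combination (1 - w) * ht
      · field_simp
        ring

lemma S_eq (hp8 : p % 8 = 5) (hp : 10 ^ 5 < p) (y₁ y₂ : ZMod p) (h2 : y₂ ≠ 0)
    (hne : y₁ ≠ y₂) :
    ∑ x : ZMod p, quadraticChar (ZMod p) (Q x y₁) * quadraticChar (ZMod p) (Q x y₂) =
      ∑ w : ZMod p, quadraticChar (ZMod p) (8 * y₂ ^ 2 * w ^ 3 +
        (y₁ ^ 2 - 18 * y₁ * y₂ + y₂ ^ 2) * w ^ 2 + 8 * y₁ ^ 2 * w + 0) - 1 := by
  have hchar : ringChar (ZMod p) ≠ 2 := by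
    rw [ZMod.ringChar_zmod_n]; omega
  have hQ2 : ∀ x : ZMod p, Q x y₂ ≠ 0 := fun x => Q_ne_zero hp8 x y₂ h2
  calc ∑ x : ZMod p, quadraticChar (ZMod p) (Q x y₁) * quadraticChar (ZMod p) (Q x y₂)
      = ∑ x : ZMod p, quadraticChar (ZMod p) (Q x y₁ / Q x y₂) := by
        apply Finset.sum_congr rfl
        intro x _
        have : Q x y₁ = (Q x y₁ / Q x y₂) * Q x y₂ := by
          rw [div_mul_cancel₀ _ (hQ2 x)]
        rw [this, map_mul, mul_assoc, ← pow_two, quadraticChar_sq_one (hQ2 x), mul_one,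
          ← this]
    _ = ∑ w : ZMod p, ∑ x ∈ Finset.univ.filter (fun x : ZMod p => Q x y₁ / Q x y₂ = w),
          quadraticChar (ZMod p) (Q x y₁ / Q x y₂) := by
        rw [Finset.sum_fiberwise]
    _ = ∑ w : ZMod p, quadraticChar (ZMod p) w *
          (1 + quadraticChar (ZMod p) (D y₁ y₂ w) - if w = 1 then 1 else 0) := by
        apply Finset.sum_congr rfl
        intro w _
        rw [← card_fibre hp y₁ y₂ hne w]
        have : Finset.univ.filter (fun x : ZMod p => Q x y₁ / Q x y₂ = w) =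
            Finset.univ.filter (fun x : ZMod p => Q x y₁ = w * Q x y₂) := by
          ext x
          simp only [Finset.mem_filter, Finset.mem_univ, true_and]
          rw [div_eq_iff (hQ2 x)]
        rw [← this, Finset.sum_congr rfl (g := fun _ => quadraticChar (ZMod p) w)]
        · rw [Finset.sum_const, nsmul_eq_mul, mul_comm]
        · intro x hx
          simp only [Finset.mem_filter, Finset.mem_univ, true_and] at hx
          rw [hx]
    _ = ∑ w : ZMod p, (quadraticChar (ZMod p) w + quadraticChar (ZMod p) (8 * y₂ ^ 2 * w ^ 3 +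
        (y₁ ^ 2 - 18 * y₁ * y₂ + y₂ ^ 2) * w ^ 2 + 8 * y₁ ^ 2 * w + 0)
          - (if w = 1 then quadraticChar (ZMod p) w else 0)) := by
        apply Finset.sum_congr rfl
        intro w _
        have : 8 * y₂ ^ 2 * w ^ 3 + (y₁ ^ 2 - 18 * y₁ * y₂ + y₂ ^ 2) * w ^ 2 +
            8 * y₁ ^ 2 * w + 0 = w * D y₁ y₂ w := by
          unfold D; ring
        rw [this, map_mul]
        split_ifs <;> ring
    _ = _ := by
        rw [Finset.sum_sub_distrib, Finset.sum_add_distrib, quadraticChar_sum_zero hchar,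
          Finset.sum_ite_eq' Finset.univ (1 : ZMod p)]
        simp

lemma T_bound (hcb : CubicBound p) (hp : 10 ^ 5 < p) (y₁ y₂ : ZMod p) (h1 : y₁ ≠ 0) (h2 : y₂ ≠ 0) :
    8 * ∑ w : ZMod p, quadraticChar (ZMod p) (8 * y₂ ^ 2 * w ^ 3 +
        (y₁ ^ 2 - 18 * y₁ * y₂ + y₂ ^ 2) * w ^ 2 + 8 * y₁ ^ 2 * w + 0) < (p : ℤ) := by
  have h20 := two_ne_zero' hp
  have h8 : (8 : ZMod p) ≠ 0 := by
    have : (8 : ZMod p) = 2 ^ 3 := by norm_num
    rw [this]; exact pow_ne_zero _ h20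
  have ha : 8 * y₂ ^ 2 ≠ 0 := mul_ne_zero h8 (pow_ne_zero _ h2)
  have hc : 8 * y₁ ^ 2 ≠ 0 := mul_ne_zero h8 (pow_ne_zero _ h1)
  have key := hcb (8 * y₂ ^ 2) (y₁ ^ 2 - 18 * y₁ * y₂ + y₂ ^ 2)
    (8 * y₁ ^ 2) 0 ha (by
      rintro ⟨r, hr⟩
      have e0 := hr 0
      have hr0 : r = 0 := by
        have : 8 * y₂ ^ 2 * r ^ 3 = 0 := by linear_combination e0
        rcases mul_eq_zero.mp this with h | h
        · exact absurd h ha
        · exact pow_eq_zero_iff (by norm_num) |>.mp h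
      subst hr0
      have e1 := hr 1
      have e2 := hr (-1)
      apply mul_ne_zero h20 hc
      linear_combination e1 - e2)
  set T := ∑ w : ZMod p, quadraticChar (ZMod p) (8 * y₂ ^ 2 * w ^ 3 +
        (y₁ ^ 2 - 18 * y₁ * y₂ + y₂ ^ 2) * w ^ 2 + 8 * y₁ ^ 2 * w + 0) with hT
  clear_value T
  by_contra hcon
  push Not at hcon
  have hpz : (10 ^ 5 : ℤ) < p := by exact_mod_cast hp
  have h4 : (p : ℤ) ^ 4 ≤ (8 * T) ^ 4 := pow_le_pow_left₀ (by positivity) hcon 4
  have h5 : (p : ℤ) ^ 4 * (p - 1) ^ 2 ≤ 4096 * (9 * (p : ℤ) ^ 5) := by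
    calc (p : ℤ) ^ 4 * (p - 1) ^ 2 ≤ (8 * T) ^ 4 * (p - 1) ^ 2 := by gcongr
      _ = 4096 * (T ^ 4 * (p - 1) ^ 2) := by ring
      _ ≤ _ := by linarith
  have h6 : (p : ℤ) ^ 4 * ((p - 1) ^ 2 - 36864 * p) ≤ 0 := by nlinarith
  have h7 : 0 < (p : ℤ) ^ 4 * ((p - 1) ^ 2 - 36864 * p) := by
    apply mul_pos (by positivity)
    nlinarith
  linarith

/-- H3, from H2 -/
theorem exists_good_of (hcb : CubicBound p) (hp8 : p % 8 = 5) (hp : 10 ^ 5 < p)
    (X Y : Finset (ZMod p)) (hY : Y.card = 8) (hY0 : ∀ y ∈ Y, y ≠ 0)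
    (hX : p < 4 * X.card + 200) :
    ∃ x ∈ X, ∃ y ∈ Y, IsSquare (2 * (x ^ 2 - 6 * x * y + y ^ 2)) ∧
      2 * (x ^ 2 - 6 * x * y + y ^ 2) ≠ 0 := by
  by_contra hcon
  push Not at hcon
  have h2 := two_ne_zero' hp
  have hchar : ringChar (ZMod p) ≠ 2 := by
    rw [ZMod.ringChar_zmod_n]; omega
  have hχ2 : quadraticChar (ZMod p) 2 = -1 := by
    rw [quadraticChar_neg_one_iff_not_isSquare]
    exact two_nonsquare hp8
  have hone : ∀ x ∈ X, ∀ y ∈ Y, quadraticChar (ZMod p) (Q x y) = 1 := by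
    intro x hx y hy
    have hq := Q_ne_zero hp8 x y (hY0 y hy)
    have hn : ¬ IsSquare (2 * Q x y) := by
      intro hs
      exact mul_ne_zero h2 hq (hcon x hx y hy hs)
    rw [← quadraticChar_neg_one_iff_not_isSquare, map_mul, hχ2] at hn
    linarith
  have hlow : 64 * (X.card : ℤ) ≤
      ∑ x : ZMod p, (∑ y ∈ Y, quadraticChar (ZMod p) (Q x y)) ^ 2 := by
    calc 64 * (X.card : ℤ) = ∑ x ∈ X, (64 : ℤ) := by
          rw [Finset.sum_const, nsmul_eq_mul]; ring
      _ = ∑ x ∈ X, (∑ y ∈ Y, quadraticChar (ZMod p) (Q x y)) ^ 2 := by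
          apply Finset.sum_congr rfl
          intro x hx
          rw [Finset.sum_congr rfl (fun y hy => hone x hx y hy), Finset.sum_const, hY]
          norm_num
      _ ≤ _ := by
          apply Finset.sum_le_sum_of_subset_of_nonneg (Finset.subset_univ _)
          intro x _ _
          positivity
  have hexp : ∑ x : ZMod p, (∑ y ∈ Y, quadraticChar (ZMod p) (Q x y)) ^ 2 =
      ∑ y₁ ∈ Y, ∑ y₂ ∈ Y, ∑ x : ZMod p,
        quadraticChar (ZMod p) (Q x y₁) * quadraticChar (ZMod p) (Q x y₂) := by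
    calc ∑ x : ZMod p, (∑ y ∈ Y, quadraticChar (ZMod p) (Q x y)) ^ 2
        = ∑ x : ZMod p, ∑ y₁ ∈ Y, ∑ y₂ ∈ Y,
          quadraticChar (ZMod p) (Q x y₁) * quadraticChar (ZMod p) (Q x y₂) := by
          apply Finset.sum_congr rfl
          intro x _
          rw [pow_two, Finset.sum_mul_sum]
      _ = ∑ y₁ ∈ Y, ∑ x : ZMod p, ∑ y₂ ∈ Y,
          quadraticChar (ZMod p) (Q x y₁) * quadraticChar (ZMod p) (Q x y₂) :=
          Finset.sum_comm
      _ = _ := by
          apply Finset.sum_congr rfl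
          intro y₁ _
          exact Finset.sum_comm
  have hbound : ∀ y₁ ∈ Y, ∀ y₂ ∈ Y, 8 * ∑ x : ZMod p,
        quadraticChar (ZMod p) (Q x y₁) * quadraticChar (ZMod p) (Q x y₂) ≤
        (if y₁ = y₂ then 7 * (p : ℤ) else 0) + p := by
    intro y₁ h₁ y₂ h₂
    by_cases he : y₁ = y₂
    · subst he
      simp only [if_true]
      have : ∑ x : ZMod p,
        quadraticChar (ZMod p) (Q x y₁) * quadraticChar (ZMod p) (Q x y₁) = p := by
        rw [Finset.sum_congr rfl (g := fun _ => (1 : ℤ))]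
        · simp [ZMod.card]
        · intro x _
          rw [← pow_two, quadraticChar_sq_one (Q_ne_zero hp8 x y₁ (hY0 y₁ h₁))]
      rw [this]
      linarith
    · simp only [he, if_false, zero_add]
      rw [S_eq hp8 hp y₁ y₂ (hY0 y₂ h₂) he]
      have := T_bound hcb hp y₁ y₂ (hY0 y₁ h₁) (hY0 y₂ h₂)
      linarith
  have hsum : 8 * ∑ y₁ ∈ Y, ∑ y₂ ∈ Y, ∑ x : ZMod p,
        quadraticChar (ZMod p) (Q x y₁) * quadraticChar (ZMod p) (Q x y₂) ≤ 120 * (p : ℤ) := by
    rw [Finset.mul_sum]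
    calc ∑ y₁ ∈ Y, 8 * ∑ y₂ ∈ Y, ∑ x : ZMod p,
        quadraticChar (ZMod p) (Q x y₁) * quadraticChar (ZMod p) (Q x y₂)
        ≤ ∑ y₁ ∈ Y, 15 * (p : ℤ) := by
          apply Finset.sum_le_sum
          intro y₁ h₁
          rw [Finset.mul_sum]
          calc ∑ y₂ ∈ Y, 8 * ∑ x : ZMod p,
              quadraticChar (ZMod p) (Q x y₁) * quadraticChar (ZMod p) (Q x y₂)
              ≤ ∑ y₂ ∈ Y, ((if y₁ = y₂ then 7 * (p : ℤ) else 0) + p) :=
                Finset.sum_le_sum (fun y₂ h₂ => hbound y₁ h₁ y₂ h₂)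
            _ = 15 * (p : ℤ) := by
                rw [Finset.sum_add_distrib, Finset.sum_ite_eq, if_pos h₁, Finset.sum_const, hY,
                  nsmul_eq_mul]
                push_cast
                ring
      _ = 120 * (p : ℤ) := by
          rw [Finset.sum_const, hY, nsmul_eq_mul]
          push_cast
          ring
  have hpz : (10 ^ 5 : ℤ) < p := by exact_mod_cast hp
  have hXz : (p : ℤ) < 4 * X.card + 200 := by exact_mod_cast hX
  rw [← hexp] at hsum
  linarith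

end H3

end KumWA
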